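import Pool.Agent.H6.RCQ.Stmts1

/-! # Project RCQ, module COB -/

namespace Pool.Agent.H43.RCQ.COB

open Pool.Agent.H6.RCQ Classical

theorem cob (h4 : CO4Stmt) (h3 : CO3Stmt) : COBStmt := by
  intro V G O M hG hM hc
  by_cases h : ∃ g, g ∉ O ∧ (M.filter (fun v => G.Adj g v)).card = 4
  · obtain ⟨g, hg, hg4⟩ := h
    exact h4 V G O M hG hM hc g hg hg4
  · have h5 : M.card ≤ 5 := by
      refine h3 V G O M hG hM fun g hg => ?_
      have h6 := hc g hg
      by_contra h7
      exact h ⟨g, hg, by omega⟩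
    exact ⟨by omega, fun h6 => by omega⟩

end Pool.Agent.H43.RCQ.COB
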