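import Pool.Agent.H6.RCQ.Stmts4

/-! # Project RCQ, module GB -/

namespace Pool.Agent.H43.RCQ.GB

open Pool.Agent.H6.RCQ Classical

theorem gb : GBStmt := by
  intro V G R S I O s _ hI hO hd
  have h1 : (I.filter (fun i => G.Adj s i)).card + (O.filter (fun o => G.Adj s o)).card =
      ((I ∪ O).filter (fun v => G.Adj s v)).card := by
    rw [Finset.filter_union, Finset.card_union_of_disjoint]
    exact Finset.disjoint_filter_filter hd
  have h2 : ((I ∪ O).filter (fun v => G.Adj s v)).card +
      ((R ∩ S).filter (fun v => G.Adj s v)).card =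
      (((I ∪ O) ∪ (R ∩ S)).filter (fun v => G.Adj s v)).card := by
    rw [Finset.filter_union (s₁ := I ∪ O) (s₂ := R ∩ S), Finset.card_union_of_disjoint]
    rw [Finset.disjoint_left]
    intro v hv hv2
    rw [Finset.mem_filter, Finset.mem_union] at hv
    rw [Finset.mem_filter, Finset.mem_inter] at hv2
    replace hv := hv.1
    replace hv2 := hv2.1
    rcases hv with hv | hv
    · exact (Finset.mem_sdiff.1 (hI hv)).2 hv2.2
    · exact (Finset.mem_sdiff.1 (hO hv)).2 hv2.2
  rw [h1, h2]
  refine Finset.card_le_card ?_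
  unfold D
  refine Finset.filter_subset_filter _ ?_
  intro v hv
  rw [Finset.mem_union, Finset.mem_union, Finset.mem_inter] at hv
  rcases hv with (hv | hv) | hv
  · exact (Finset.mem_sdiff.1 (hI hv)).1
  · exact (Finset.mem_sdiff.1 (hO hv)).1
  · exact hv.1

end Pool.Agent.H43.RCQ.GB
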